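import Pool.Agent.L7h55.TN.Stm2

/-!
Project TN (helper55), second half: part GAU (helper56)
-/

set_option autoImplicit false
set_option linter.unusedSimpArgs false

namespace Pool.Agent.L7h56.TN

open Pool.Agent.L7h55.TN Polynomial

theorem L4_monic : (L4).Monic := by
  unfold L4
  have h1 : (X - 1 : ℤ[X]).Monic := by
    have := monic_X_sub_C (1 : ℤ)
    rwa [C_1] at this
  have h2 : (X + 1 : ℤ[X]).Monic := by
    have := monic_X_add_C (1 : ℤ)
    rwa [C_1] at this
  exact (h1.pow 3).mul h2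

theorem SP_eq (A : ℕ) : SP (2 * A + 1) = 2 * T A := by
  unfold SP T
  have e1 : ((2 * A + 1 : ℕ) : ℤ) - 1 = 2 * A := by push_cast; ring
  have e2 : ((2 * A + 1 : ℕ) : ℤ) + 1 = 2 * (A + 1) := by push_cast; ring
  rw [e1, e2]
  simp only [C_mul, map_ofNat]
  ring

theorem T_coeff_top (A : ℕ) (hA : 2 ≤ A) : (T A).coeff (2 * A + 2) = A := by
  unfold T
  simp only [coeff_sub, coeff_C_mul, coeff_X_pow, coeff_one, coeff_X]
  have h1 : 2 * A + 2 ≠ 0 := by omega
  have h2 : 2 * A + 2 ≠ 2 * A + 1 := by omega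
  have h3 : 1 ≠ 2 * A + 2 := by omega
  simp [h1, h2, h3]

theorem T_coeff_sub (A : ℕ) (hA : 2 ≤ A) : (T A).coeff (2 * A + 1) = -((A : ℤ) + 1) := by
  unfold T
  simp only [coeff_sub, coeff_C_mul, coeff_X_pow, coeff_one, coeff_X]
  have h1 : 2 * A + 1 ≠ 0 := by omega
  have h2 : 2 * A + 1 ≠ 2 * A + 2 := by omega
  have h3 : 1 ≠ 2 * A + 1 := by omega
  have h4 : A ≠ 0 := by omega
  simp [h1, h2, h3, h4]

theorem T_natDegree (A : ℕ) (hA : 2 ≤ A) : (T A).natDegree = 2 * A + 2 := by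
  apply natDegree_eq_of_le_of_coeff_ne_zero
  · unfold T
    compute_degree
  · rw [T_coeff_top A hA]
    have : A ≠ 0 := by omega
    exact_mod_cast this

theorem T_primitive (A : ℕ) (hA : 2 ≤ A) : (T A).IsPrimitive := by
  intro r hr
  rw [C_dvd_iff_dvd_coeff] at hr
  have h1 := hr (2 * A + 2)
  have h2 := hr (2 * A + 1)
  rw [T_coeff_top A hA] at h1
  rw [T_coeff_sub A hA] at h2
  have h3 : r ∣ -((A : ℤ)) + -(-((A : ℤ) + 1)) := dvd_add (dvd_neg.2 h1) (dvd_neg.2 h2)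
  have h4 : -((A : ℤ)) + -(-((A : ℤ) + 1)) = 1 := by ring
  rw [h4] at h3
  exact isUnit_of_dvd_one h3

theorem natDegree_L4 : (L4).natDegree = 4 := by
  unfold L4
  have h1 : (X - 1 : ℤ[X]).Monic := by
    have := monic_X_sub_C (1 : ℤ)
    rwa [C_1] at this
  have h2 : (X + 1 : ℤ[X]).Monic := by
    have := monic_X_add_C (1 : ℤ)
    rwa [C_1] at this
  have d1 : (X - 1 : ℤ[X]).natDegree = 1 := by
    have := natDegree_X_sub_C (1 : ℤ)
    rwa [C_1] at this
  have d2 : (X + 1 : ℤ[X]).natDegree = 1 := by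
    have := natDegree_X_add_C (1 : ℤ)
    rwa [C_1] at this
  rw [(h1.pow 3).natDegree_mul h2, h1.natDegree_pow, d1, d2]

theorem pos_of_prim {a : ℤ[X]} (ha : a.IsPrimitive) (hu : ¬ IsUnit a) : 0 < a.natDegree := by
  rw [Nat.pos_iff_ne_zero]
  intro h
  apply hu
  rw [eq_C_of_natDegree_eq_zero h]
  have h1 := ha (a.coeff 0) (by
    conv_rhs => rw [eq_C_of_natDegree_eq_zero h])
  exact h1.map C

theorem s_GAU : S_GAU := by
  intro A P hA hP hirr
  have hinj : Function.Injective (Int.castRingHom ℚ) := Int.cast_injective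
  -- division over the integers
  have hL : (L4.map (Int.castRingHom ℚ)) = (X - 1) ^ 3 * (X + 1) := by
    unfold L4
    simp [Polynomial.map_mul, Polynomial.map_pow, Polynomial.map_sub, Polynomial.map_add]
  have hSP : (SP (2 * A + 1)).map (Int.castRingHom ℚ) = 2 * (T A).map (Int.castRingHom ℚ) := by
    rw [SP_eq, Polynomial.map_mul]
    simp
  have h2 : (C (2 : ℚ)) * C (1 / 2 : ℚ) = 1 := by
    rw [← C_mul]; norm_num
  have hC2 : (C (2 : ℚ) : ℚ[X]) = 2 := map_ofNat C 2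
  have hdvd : L4.map (Int.castRingHom ℚ) ∣ (T A).map (Int.castRingHom ℚ) := by
    refine ⟨C (1 / 2 : ℚ) * P, ?_⟩
    rw [hL]
    have h3 : (X - 1) ^ 3 * (X + 1) * P = C (2 : ℚ) * (T A).map (Int.castRingHom ℚ) := by
      rw [hP, hSP, hC2]
    linear_combination (-(T A).map (Int.castRingHom ℚ)) * h2 - C (1 / 2 : ℚ) * h3
  obtain ⟨Q, hQ⟩ := (Polynomial.map_dvd_map _ hinj L4_monic).1 hdvd
  have hLne : (X - 1 : ℚ[X]) ^ 3 * (X + 1) ≠ 0 := by
    rw [← hL]
    exact (L4_monic.map _).ne_zero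
  have hPQ : P = C (2 : ℚ) * Q.map (Int.castRingHom ℚ) := by
    apply mul_left_cancel₀ hLne
    rw [hP, hSP, hQ, Polynomial.map_mul, hL, hC2]
    ring
  have hQirr : ¬ Irreducible (Q.map (Int.castRingHom ℚ)) := by
    intro h
    apply hirr
    rw [hPQ]
    have hu : IsUnit (C (2 : ℚ) : ℚ[X]) := (isUnit_iff_ne_zero.2 (by norm_num : (2 : ℚ) ≠ 0)).map C
    exact (irreducible_isUnit_mul hu).2 h
  have hTp := T_primitive A hA
  have hQp : Q.IsPrimitive := isPrimitive_of_dvd hTp ⟨L4, by rw [hQ]; ring⟩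
  have hQ0 : Q ≠ 0 := hQp.ne_zero
  have hQd : Q.natDegree = 2 * A - 2 := by
    have h4 := T_natDegree A hA
    rw [hQ, L4_monic.natDegree_mul' hQ0, natDegree_L4] at h4
    omega
  have hQu : ¬ IsUnit Q := by
    intro h
    have := natDegree_eq_zero_of_isUnit h
    omega
  have hQi : ¬ Irreducible Q := fun h =>
    hQirr ((IsPrimitive.Int.irreducible_iff_irreducible_map_cast hQp).1 h)
  rw [irreducible_iff] at hQi
  push Not at hQi
  obtain ⟨a, b, hab, hau, hbu⟩ := hQi hQu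
  have hap : a.IsPrimitive := isPrimitive_of_dvd hQp ⟨b, hab⟩
  have hbp : b.IsPrimitive := isPrimitive_of_dvd hQp ⟨a, by rw [hab]; ring⟩
  have hda := pos_of_prim hap hau
  have hdb := pos_of_prim hbp hbu
  have hlead : a.leadingCoeff * b.leadingCoeff = A := by
    have h5 : (T A).leadingCoeff = A := by
      rw [leadingCoeff, T_natDegree A hA, T_coeff_top A hA]
    rw [hQ, leadingCoeff_mul, L4_monic.leadingCoeff, one_mul, hab, leadingCoeff_mul] at h5
    exact h5
  have hApos : (0 : ℤ) < A := by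
    have : 0 < A := by omega
    exact_mod_cast this
  rcases lt_trichotomy a.leadingCoeff 0 with h | h | h
  · refine ⟨-a, -b, ⟨?_, ?_, ?_, ?_, ?_⟩⟩
    · rw [hQ, hab]; ring
    · rwa [natDegree_neg]
    · rwa [natDegree_neg]
    · rw [leadingCoeff_neg]; linarith
    · rw [leadingCoeff_neg]
      nlinarith
  · rw [h, zero_mul] at hlead
    omega
  · refine ⟨a, b, ⟨?_, hda, hdb, h, ?_⟩⟩
    · rw [hQ, hab]
    · nlinarith

end Pool.Agent.L7h56.TN
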