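import Pool.Agent.L7h56.TN.Prm
import Pool.Agent.L7h56.TN.Gau
import Pool.Agent.L7h55.TN.Fin

/-!
Project TN (helper55), second half: part HD (helper56)
-/

set_option autoImplicit false

namespace Pool.Agent.L7h56.TN

open Pool.Agent.L7h55.TN Polynomial

section
variable (R : ValuationSubring ℂ)

theorem v_one_of_coprime {D E : ℤ} (h : IsCoprime D E) (hD : R.valuation (D : ℂ) < 1) :
    R.valuation (E : ℂ) = 1 := by
  obtain ⟨u, w, huw⟩ := h
  refine le_antisymm (Pool.Agent.L7h16.TN.int_le R E) ?_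
  by_contra hcon
  rw [not_le] at hcon
  have e : (1 : ℂ) = (u : ℂ) * (D : ℂ) + (w : ℂ) * (E : ℂ) := by exact_mod_cast huw.symm
  have h1 : R.valuation ((u : ℂ) * (D : ℂ)) < 1 :=
    lt_of_le_of_lt (Pool.Agent.L7h16.TN.mul_le_left R (Pool.Agent.L7h16.TN.int_le R u)) hD
  have h2 : R.valuation ((w : ℂ) * (E : ℂ)) < 1 :=
    lt_of_le_of_lt (Pool.Agent.L7h16.TN.mul_le_left R (Pool.Agent.L7h16.TN.int_le R w)) hcon
  have h3 := R.valuation.map_add_lt h1 h2
  rw [← e, map_one] at h3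
  exact lt_irrefl _ h3

/-- value of the form -/
theorem H_le (f : ℤ[X]) (b : ℂ) (A B : ℤ) (hb : R.valuation b ≤ 1) (h0 : aeval b f = 0) :
    R.valuation ((H f A B : ℤ) : ℂ) ≤ R.valuation ((A : ℂ) - b * B) := by
  have hbR : b ∈ R := (R.valuation_le_one_iff _).1 hb
  have hsum : (∑ i ∈ Finset.range (f.natDegree + 1),
      (f.coeff i : ℂ) * (b * B) ^ i * (B : ℂ) ^ (f.natDegree - i)) = 0 := by
    have h1 : (B : ℂ) ^ f.natDegree * aeval b f = 0 := by rw [h0, mul_zero]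
    rw [aeval_eq_sum_range, Finset.mul_sum] at h1
    rw [← h1]
    apply Finset.sum_congr rfl
    intro i hi
    have hi' : i ≤ f.natDegree := Nat.lt_succ_iff.1 (Finset.mem_range.1 hi)
    have h2 : (B : ℂ) ^ f.natDegree = (B : ℂ) ^ i * (B : ℂ) ^ (f.natDegree - i) := by
      rw [← pow_add, Nat.add_sub_cancel' hi']
    rw [h2, mul_pow, zsmul_eq_mul]
    ring
  have hH : ((H f A B : ℤ) : ℂ) = ∑ i ∈ Finset.range (f.natDegree + 1),
      (f.coeff i : ℂ) * (B : ℂ) ^ (f.natDegree - i) * ((A : ℂ) ^ i - (b * B) ^ i) := by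
    have h3 : ((H f A B : ℤ) : ℂ) = ((H f A B : ℤ) : ℂ) - ∑ i ∈ Finset.range (f.natDegree + 1),
      (f.coeff i : ℂ) * (b * B) ^ i * (B : ℂ) ^ (f.natDegree - i) := by rw [hsum, sub_zero]
    rw [h3]
    unfold H
    push_cast
    rw [← Finset.sum_sub_distrib]
    apply Finset.sum_congr rfl
    intro i _
    ring
  rw [hH]
  apply Valuation.map_sum_le
  intro i _
  have h4 : R.valuation ((f.coeff i : ℂ) * (B : ℂ) ^ (f.natDegree - i)) ≤ 1 := by
    rw [map_mul, map_pow]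
    exact mul_le_one' (Pool.Agent.L7h16.TN.int_le R _)
      (pow_le_one' (Pool.Agent.L7h16.TN.int_le R _) _)
  refine le_trans (Pool.Agent.L7h16.TN.mul_le_left R h4) ?_
  exact Pool.Agent.L7h16.TN.pow_sub_le R (intCast_mem R A) (mul_mem hbR (intCast_mem R B)) i

theorem core (hRT : S_RT) (hLC : S_LC) (hCON : S_CON) (hCOP : S_COP) (A : ℕ) (f g : ℤ[X])
    (hA : 2 ≤ A) (hF : Fac A f g) (hD : R.valuation (f.leadingCoeff : ℂ) < 1) :
    R.valuation ((H f A (A + 1) : ℤ) : ℂ) ≤ R.valuation (f.leadingCoeff : ℂ) ^ (2 * A + 1) := by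
  have hf0 : f ≠ 0 := by
    rintro rfl
    exact absurd hF.lf (by simp)
  have hE1 := v_one_of_coprime R (hCOP A f g hA hF) hD
  have hvA : R.valuation (A : ℂ) = R.valuation (f.leadingCoeff : ℂ) := by
    have h1 := (hLC A f g hA hF).1
    have h2 : (A : ℂ) = (f.leadingCoeff : ℂ) * (g.leadingCoeff : ℂ) := by exact_mod_cast h1.symm
    rw [h2, map_mul, hE1, mul_one]
  have hvA1 : R.valuation (A : ℂ) < 1 := by rw [hvA]; exact hD
  have hvB : R.valuation ((A : ℂ) + 1) = 1 := by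
    rw [add_comm]
    exact Valuation.map_one_add_of_lt _ hvA1
  -- a coefficient of value one
  have hco : ∃ i, R.valuation (f.coeff i : ℂ) = 1 := by
    by_contra hcon
    push Not at hcon
    have hlt : ∀ i, R.valuation (f.coeff i : ℂ) < 1 := fun i =>
      lt_of_le_of_ne (Pool.Agent.L7h16.TN.int_le R _) (hcon i)
    have h1 := T_coeff_sub A hA
    rw [← hF.eq, show L4 * (f * g) = f * (L4 * g) by ring, coeff_mul] at h1
    have h2 : R.valuation ((-((A : ℤ) + 1) : ℤ) : ℂ) < 1 := by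
      rw [← h1]
      push_cast
      apply Valuation.map_sum_lt _ one_ne_zero
      intro x _
      rw [mul_comm]
      exact lt_of_le_of_lt (Pool.Agent.L7h16.TN.mul_le_left R (Pool.Agent.L7h16.TN.int_le R _))
        (hlt _)
    push_cast at h2
    rw [show (-((A : ℂ) + 1)) = -((A : ℂ) + 1) from rfl, Valuation.map_neg, hvB] at h2
    exact lt_irrefl _ h2
  obtain ⟨b, hb0, hb1⟩ := s_PRM R f hD hf0 (hCON A f g hA hF) hco
  have hS := (hRT A f g hA hF b hb0).1
  have hSe := S_eq hS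
  have heq : ((A : ℂ) + 1) * b - A = b ^ (2 * A + 1) * (((A : ℂ) + 1) - A * b) := by
    push_cast at hSe
    have h2 : (2 : ℂ) ≠ 0 := two_ne_zero
    apply mul_left_cancel₀ h2
    linear_combination hSe
  have hv1 : R.valuation (((A : ℂ) + 1) - A * b) = 1 := by
    have h1 : R.valuation ((A : ℂ) * b) < R.valuation ((A : ℂ) + 1) := by
      rw [hvB, map_mul]
      exact lt_of_le_of_lt (mul_le_of_le_one_left' hvA1.le) hb1
    rw [Valuation.map_sub_eq_of_lt_left _ h1, hvB]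
  have hv2 : R.valuation (((A : ℂ) + 1) * b - A) = R.valuation b ^ (2 * A + 1) := by
    rw [heq, map_mul, map_pow, hv1, mul_one]
  have hbA : R.valuation b ≤ R.valuation (A : ℂ) := by
    by_contra hcon
    rw [not_le] at hcon
    have h1 : R.valuation (((A : ℂ) + 1) * b) = R.valuation b := by rw [map_mul, hvB, one_mul]
    have h2 : R.valuation (((A : ℂ) + 1) * b - A) = R.valuation b := by
      rw [Valuation.map_sub_eq_of_lt_left _ (by rw [h1]; exact hcon), h1]
    rw [hv2] at h2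
    have hb00 : R.valuation b ≠ 0 := by
      intro h; rw [h] at hcon; exact not_lt_zero hcon
    have h3 : R.valuation b ^ (2 * A) < 1 := by
      obtain ⟨m, hm⟩ : ∃ m, 2 * A = m + 1 := ⟨2 * A - 1, by omega⟩
      rw [hm, pow_succ]
      exact lt_of_le_of_lt (mul_le_of_le_one_left' (pow_le_one' hb1.le m)) hb1
    rw [pow_succ] at h2
    have h4 : R.valuation b ^ (2 * A) = 1 := by
      have h5 : R.valuation b ^ (2 * A) * R.valuation b = 1 * R.valuation b := by rw [one_mul]; exact h2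
      exact mul_right_cancel₀ hb00 h5
    rw [h4] at h3
    exact lt_irrefl _ h3
  have hH := H_le R f b (A : ℤ) ((A : ℤ) + 1) hb1.le hb0
  refine le_trans hH ?_
  have h6 : (((A : ℤ) : ℂ)) - b * (((A : ℤ) + 1 : ℤ) : ℂ) = -(((A : ℂ) + 1) * b - A) := by
    push_cast
    ring
  rw [h6, Valuation.map_neg, hv2, ← hvA]
  exact pow_le_pow_left₀ zero_le hbA _

end

theorem s_HD (hRT : S_RT) (hLC : S_LC) (hCON : S_CON) (hCOP : S_COP) : S_HD := by
  intro A f g hA hF
  rw [← Int.natAbs_dvd_natAbs, Nat.dvd_iff_prime_pow_dvd_dvd]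
  intro p k hp hk
  rcases Nat.eq_zero_or_pos k with rfl | hk0
  · rw [pow_zero]; exact one_dvd _
  have hk' : ((p : ℤ) ^ k) ∣ f.leadingCoeff ^ (2 * A + 1) := by
    have := Int.natCast_dvd.2 hk
    exact_mod_cast this
  have hpD : (p : ℤ) ∣ f.leadingCoeff := by
    have h1 : (p : ℤ) ∣ f.leadingCoeff ^ (2 * A + 1) := dvd_trans (dvd_pow_self _ hk0.ne') hk'
    exact (Nat.prime_iff_prime_int.1 hp).dvd_of_dvd_pow h1
  obtain ⟨R, hR⟩ := s_EXV p hp
  have hvD : R.valuation (f.leadingCoeff : ℂ) < 1 := by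
    obtain ⟨c, hc⟩ := hpD
    rw [hc, mul_comm]
    push_cast
    exact lt_of_le_of_lt (Pool.Agent.L7h16.TN.mul_le_left R (Pool.Agent.L7h16.TN.int_le R c)) hR
  have hcore := core R hRT hLC hCON hCOP A f g hA hF hvD
  have hle : R.valuation (f.leadingCoeff : ℂ) ^ (2 * A + 1) ≤ R.valuation (p : ℂ) ^ k := by
    obtain ⟨c, hc⟩ := hk'
    rw [← map_pow, ← map_pow]
    have e : (f.leadingCoeff : ℂ) ^ (2 * A + 1) = (c : ℂ) * (p : ℂ) ^ k := by
      have : (((f.leadingCoeff ^ (2 * A + 1) : ℤ)) : ℂ) = ((((p : ℤ) ^ k * c : ℤ)) : ℂ) := by rw [hc]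
      push_cast at this
      rw [this]; ring
    rw [e]
    exact Pool.Agent.L7h16.TN.mul_le_left R (Pool.Agent.L7h16.TN.int_le R c)
  have h7 := Pool.Agent.L7h16.TN.pow_dvd_of_le R hp hR k _ (le_trans hcore hle)
  have h8 := Int.natAbs_dvd_natAbs.2 h7
  rwa [Int.natAbs_pow, Int.natAbs_natCast] at h8

end Pool.Agent.L7h56.TN
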