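import Pool.Agent.L7h55.TN.Stm2
import Pool.Agent.L7h16.TN.Lem

/-!
Project TN (helper55), second half: parts EXV and PRM (helper56)
-/

set_option autoImplicit false

namespace Pool.Agent.L7h56.TN

open Pool.Agent.L7h55.TN Polynomial

theorem s_EXV : S_EXV := by
  intro p hp
  let A : Subring ℂ := (Int.castRingHom ℂ).range
  let P : A := ⟨(p : ℂ), ⟨(p : ℤ), by simp⟩⟩
  have hI : Ideal.span {P} ≠ ⊤ := by
    intro h
    rw [Ideal.span_singleton_eq_top] at h
    obtain ⟨q, hq⟩ := h.exists_right_inv
    obtain ⟨m, hm⟩ := q.2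
    have h1 : (p : ℂ) * (q : ℂ) = 1 := by
      have h3 := congrArg (fun t : A => (t : ℂ)) hq
      simpa [P] using h3
    rw [← hm] at h1
    have h4 : (p : ℤ) * m = 1 := by
      have : ((p : ℤ) : ℂ) * (m : ℂ) = 1 := by simpa using h1
      exact_mod_cast this
    have h5 : (p : ℤ) ∣ 1 := ⟨m, h4.symm⟩
    have h6 : p ∣ 1 := by exact_mod_cast h5
    exact hp.one_lt.ne' (Nat.dvd_one.1 h6)
  obtain ⟨R, -, hR⟩ := Ideal.image_subset_nonunits_valuationSubring (Ideal.span {P}) hI
  refine ⟨R, ?_⟩
  have h1 : (p : ℂ) ∈ (R.nonunits : Set ℂ) :=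
    hR ⟨P, Ideal.subset_span rfl, rfl⟩
  exact h1

variable (R : ValuationSubring ℂ)

/-- coefficients of a product of polynomials with coefficients of value at most one -/
theorem coeff_mul_le (P Q : ℂ[X]) (hP : ∀ i, R.valuation (P.coeff i) ≤ 1)
    (hQ : ∀ i, R.valuation (Q.coeff i) ≤ 1) (i : ℕ) : R.valuation ((P * Q).coeff i) ≤ 1 := by
  rw [coeff_mul]
  apply Valuation.map_sum_le
  intro x _
  rw [map_mul]
  exact mul_le_one' (hP _) (hQ _)

theorem coeff_prod_le (s : Multiset ℂ) (hs : ∀ b ∈ s, R.valuation b ≤ 1) :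
    ∀ i, R.valuation ((s.map (fun b => (X - C b : ℂ[X]))).prod.coeff i) ≤ 1 := by
  induction s using Multiset.induction_on with
  | empty =>
    intro i
    rw [Multiset.map_zero, Multiset.prod_zero, coeff_one]
    split_ifs
    · simp
    · simp
  | cons b t ih =>
    rw [Multiset.map_cons, Multiset.prod_cons]
    apply coeff_mul_le
    · intro i
      rw [coeff_sub, coeff_X, coeff_C]
      apply Valuation.map_sub_le
      · split_ifs <;> simp
      · split_ifs
        · exact hs b (Multiset.mem_cons_self b t)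
        · simp
    · exact ih (fun c hc => hs c (Multiset.mem_cons_of_mem hc))

theorem one_le_prod' (s : Multiset ℂ) (hs : ∀ b ∈ s, 1 ≤ R.valuation b) :
    1 ≤ R.valuation s.prod := by
  induction s using Multiset.induction_on with
  | empty => simp
  | cons b t ih =>
    rw [Multiset.prod_cons, map_mul]
    exact one_le_mul (hs b (Multiset.mem_cons_self b t))
      (ih (fun c hc => hs c (Multiset.mem_cons_of_mem hc)))

theorem s_PRM : S_PRM := by
  intro R f hD hf0 h0 hi
  by_contra hcon
  push Not at hcon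
  obtain ⟨i, hi⟩ := hi
  set F : ℂ[X] := f.map (Int.castRingHom ℂ) with hF
  have hinj : Function.Injective (Int.castRingHom ℂ) := Int.cast_injective
  have hlc : F.leadingCoeff = (f.leadingCoeff : ℂ) := by
    rw [hF, leadingCoeff_map_of_injective hinj]; rfl
  have hF0 : F ≠ 0 := by
    rw [hF]; exact (Polynomial.map_ne_zero_iff hinj).2 hf0
  have hs : F.Splits := IsAlgClosed.splits F
  have hprod := hs.eq_prod_roots
  have hroot : ∀ b ∈ F.roots, 1 ≤ R.valuation b := by
    intro b hb
    refine hcon b ?_
    rw [mem_roots hF0, IsRoot.def, hF, eval_map] at hb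
    exact hb
  have hD0 : (f.leadingCoeff : ℂ) ≠ 0 := by
    exact_mod_cast leadingCoeff_ne_zero.2 hf0
  -- the constant coefficient
  have hc0 : R.valuation F.roots.prod = 1 := by
    have h1 : F.coeff 0 = F.leadingCoeff := by
      rw [hlc, hF, coeff_map, h0]; rfl
    have h2 : F.coeff 0 = F.leadingCoeff * (F.roots.map (fun b => -b)).prod := by
      conv_lhs => rw [hprod]
      rw [coeff_zero_eq_eval_zero, eval_mul, eval_C, eval_multiset_prod, Multiset.map_map]
      congr 2
      apply Multiset.map_congr rfl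
      intro b _
      simp
    rw [h1, hlc] at h2
    have h3 : (F.roots.map (fun b => -b)).prod = 1 := by
      have h4 : (f.leadingCoeff : ℂ) * (F.roots.map (fun b => -b)).prod = f.leadingCoeff * 1 := by
        rw [mul_one]; exact h2.symm
      exact mul_left_cancel₀ hD0 h4
    have h5 : (F.roots.map (fun b => -b)).prod = (-1) ^ (Multiset.card F.roots) * F.roots.prod :=
      Multiset.prod_map_neg F.roots
    rw [h5] at h3
    have h6 := congrArg R.valuation h3
    rw [map_mul, map_pow, Valuation.map_neg, map_one, one_pow, one_mul] at h6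
    exact h6
  have hone : ∀ b ∈ F.roots, R.valuation b ≤ 1 := by
    intro b hb
    obtain ⟨t, ht⟩ := Multiset.exists_cons_of_mem hb
    rw [ht, Multiset.prod_cons, map_mul] at hc0
    have h1 : 1 ≤ R.valuation t.prod := one_le_prod' R t (fun c hc => hroot c (by
      rw [ht]; exact Multiset.mem_cons_of_mem hc))
    calc R.valuation b = R.valuation b * 1 := (mul_one _).symm
      _ ≤ R.valuation b * R.valuation t.prod := by gcongr
      _ = 1 := hc0
  have hcoef : R.valuation (F.coeff i) < 1 := by
    rw [hprod, coeff_C_mul, map_mul, hlc]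
    calc R.valuation (f.leadingCoeff : ℂ) * _ ≤ R.valuation (f.leadingCoeff : ℂ) * 1 := by
          gcongr
          exact coeff_prod_le R F.roots hone i
      _ < 1 := by rw [mul_one]; exact hD
  have hfi : F.coeff i = (f.coeff i : ℂ) := by rw [hF, coeff_map]; rfl
  rw [hfi, hi] at hcoef
  exact lt_irrefl _ hcoef

end Pool.Agent.L7h56.TN
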