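import Pool.Agent.L7h55.TN.Stm3

/-!
Project TN (helper55), third part: part RND (helper56)
-/

set_option autoImplicit false

namespace Pool.Agent.L7h56.TN

open Pool.Agent.L7h55.TN Polynomial

theorem pow_part {K : Type} [Field K] (F G V : K[X]) (c : K) (m r : ℕ) (hc : c ≠ 0)
    (hco : IsCoprime F G) (h : F * G = C c * (X - C 1) ^ m * V ^ r) (hX : ¬ (X - C 1 : K[X]) ∣ F)
    (hF : F ≠ 0) : r ∣ F.natDegree := by
  have hirr : Irreducible (X - C 1 : K[X]) := irreducible_X_sub_C 1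
  have h1 : IsCoprime (X - C 1 : K[X]) F := (hirr.coprime_iff_not_dvd).2 hX
  have h2 : (X - C 1 : K[X]) ^ m ∣ G := by
    have h3 : (X - C 1 : K[X]) ^ m ∣ F * G := by
      rw [h]
      exact ⟨C c * V ^ r, by ring⟩
    exact (h1.pow_left).dvd_of_dvd_mul_left h3
  obtain ⟨G', hG'⟩ := h2
  have hX0 : (X - C 1 : K[X]) ^ m ≠ 0 := pow_ne_zero _ (X_sub_C_ne_zero 1)
  have h4 : F * (C c⁻¹ * G') = V ^ r := by
    apply mul_left_cancel₀ hX0
    have h5 : C c⁻¹ * C c = (1 : K[X]) := by rw [← C_mul, inv_mul_cancel₀ hc, C_1]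
    calc (X - C 1) ^ m * (F * (C c⁻¹ * G')) = C c⁻¹ * (F * ((X - C 1) ^ m * G')) := by ring
      _ = C c⁻¹ * (C c * (X - C 1) ^ m * V ^ r) := by rw [← hG', h]
      _ = (C c⁻¹ * C c) * ((X - C 1) ^ m * V ^ r) := by ring
      _ = (X - C 1) ^ m * V ^ r := by rw [h5, one_mul]
  have h6 : IsCoprime F (C c⁻¹ * G') := by
    have h7 : IsCoprime F G' := by
      rw [hG'] at hco
      exact hco.of_mul_right_right
    have h8 : IsUnit (C c⁻¹ : K[X]) := (isUnit_iff_ne_zero.2 (inv_ne_zero hc)).map C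
    exact (isCoprime_mul_unit_left_right h8 F G').2 h7
  obtain ⟨d, hd⟩ := exists_associated_pow_of_mul_eq_pow' h6 h4
  have h9 := natDegree_eq_of_degree_eq (degree_eq_degree_of_associated hd)
  rw [natDegree_pow] at h9
  exact ⟨d.natDegree, h9.symm⟩

theorem s_RND (hRNC : S_RNC) (hLC : S_LC) : S_RND := by
  intro A r f g hr hA hF hr5 hdvd hndvd
  haveI : Fact r.Prime := ⟨hr⟩
  have hco := hRNC A r f g hA hF hr5 hdvd hndvd
  set F := f.map (Int.castRingHom (ZMod r)) with hFdef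
  set G := g.map (Int.castRingHom (ZMod r)) with hGdef
  -- the number A modulo r
  have hA1 : (A : ZMod r) ≠ 0 := by
    intro h
    rw [ZMod.natCast_eq_zero_iff] at h
    have h1 : r ∣ 1 := by
      have h2 : r ∣ 2 * A := h.mul_left 2
      exact (Nat.dvd_add_right h2).1 hdvd
    exact hr.one_lt.ne' (Nat.dvd_one.1 h1)
  have hA2 : (A : ZMod r) + 1 = -(A : ZMod r) := by
    have h1 : ((2 * A + 1 : ℕ) : ZMod r) = 0 := (ZMod.natCast_eq_zero_iff _ _).2 hdvd
    push_cast at h1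
    linear_combination h1
  obtain ⟨hlc, -, -⟩ := hLC A f g hA hF
  have hlcr : (f.leadingCoeff : ZMod r) * (g.leadingCoeff : ZMod r) = (A : ZMod r) := by
    have := congrArg (fun t : ℤ => (t : ZMod r)) hlc
    simpa using this
  have hfl : (f.leadingCoeff : ZMod r) ≠ 0 := by
    intro h; rw [h, zero_mul] at hlcr; exact hA1 hlcr.symm
  have hgl : (g.leadingCoeff : ZMod r) ≠ 0 := by
    intro h; rw [h, mul_zero] at hlcr; exact hA1 hlcr.symm
  have hdF : F.natDegree = f.natDegree := natDegree_map_of_leadingCoeff_ne_zero _ hfl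
  have hdG : G.natDegree = g.natDegree := natDegree_map_of_leadingCoeff_ne_zero _ hgl
  have hF0 : F ≠ 0 := by
    intro h; rw [h, natDegree_zero] at hdF; have := hF.df; omega
  have hG0 : G ≠ 0 := by
    intro h; rw [h, natDegree_zero] at hdG; have := hF.dg; omega
  -- the equation modulo r
  obtain ⟨l, hl⟩ := hdvd
  have heq := congrArg (Polynomial.map (Int.castRingHom (ZMod r))) hF.eq
  have hL : L4.map (Int.castRingHom (ZMod r)) = (X - C 1) ^ 3 * (X + 1) := by
    unfold L4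
    simp [Polynomial.map_mul, Polynomial.map_pow, Polynomial.map_sub, Polynomial.map_add]
  have hT : (T A).map (Int.castRingHom (ZMod r)) =
      C (A : ZMod r) * (X ^ (2 * A + 1) - 1) * (X + 1) := by
    unfold T
    rw [Polynomial.map_sub, Polynomial.map_mul, Polynomial.map_mul, map_C, map_C]
    have e1 : (Int.castRingHom (ZMod r)) ((A : ℤ) + 1) = -(A : ZMod r) := by
      rw [← hA2]; simp
    have e2 : (Int.castRingHom (ZMod r)) (A : ℤ) = (A : ZMod r) := by simp
    rw [e1, e2]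
    simp only [Polynomial.map_sub, Polynomial.map_pow, map_X, Polynomial.map_one, C_neg]
    ring
  rw [Polynomial.map_mul, Polynomial.map_mul, hL, hT] at heq
  have hX1 : (X + 1 : (ZMod r)[X]) ≠ 0 := by
    have := X_add_C_ne_zero (1 : ZMod r)
    rwa [C_1] at this
  have h1 : (X - C 1) ^ 3 * (F * G) = C (A : ZMod r) * (X ^ (2 * A + 1) - 1) := by
    apply mul_right_cancel₀ hX1
    rw [← heq]
    ring
  obtain ⟨V, hV⟩ : (X - C 1 : (ZMod r)[X]) ∣ X ^ l - 1 := by
    rw [C_1]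
    exact sub_one_dvd_pow_sub_one X l
  have h2 : (X ^ (2 * A + 1) - 1 : (ZMod r)[X]) = (X - C 1) ^ r * V ^ r := by
    rw [hl, ← mul_pow, ← hV, sub_pow_char, one_pow, ← pow_mul, mul_comm l r]
  have hr3 : r = 3 + (r - 3) := by omega
  have h3 : F * G = C (A : ZMod r) * (X - C 1) ^ (r - 3) * V ^ r := by
    have hX3 : (X - C 1 : (ZMod r)[X]) ^ 3 ≠ 0 := pow_ne_zero _ (X_sub_C_ne_zero 1)
    apply mul_left_cancel₀ hX3
    rw [h1, h2]
    conv_lhs => rw [show (X - C 1 : (ZMod r)[X]) ^ r = (X - C 1) ^ (3 + (r - 3)) by rw [← hr3], pow_add]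
    ring
  by_cases hX : (X - C 1 : (ZMod r)[X]) ∣ F
  · right
    have hX' : ¬ (X - C 1 : (ZMod r)[X]) ∣ G := by
      intro h
      have hu := hco.isUnit_of_dvd' hX h
      exact (irreducible_X_sub_C (1 : ZMod r)).not_isUnit hu
    rw [← hdG]
    exact pow_part G F V _ (r - 3) r hA1 hco.symm (by rw [mul_comm, h3]) hX' hG0
  · left
    rw [← hdF]
    exact pow_part F G V _ (r - 3) r hA1 hco h3 hX hF0

end Pool.Agent.L7h56.TN
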