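import Pool.Agent.L7h55.TN.Stm3

/-!
Project TN (helper55), third part: part VAL1 (helper56)
-/

set_option autoImplicit false

namespace Pool.Agent.L7h56.TN

open Pool.Agent.L7h55.TN Polynomial

theorem d3 (W : ℤ[X]) :
    (derivative (derivative (derivative ((X - 1) ^ 3 * W)))).eval 1 = 6 * W.eval 1 := by
  have h1 : derivative ((X - 1) ^ 3 * W) = (X - 1) ^ 2 * (3 * W + (X - 1) * derivative W) := by
    rw [derivative_mul, derivative_pow]
    simp only [derivative_sub, derivative_X, derivative_one, Nat.cast_ofNat, map_ofNat]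
    ring
  have h2 : ∀ U : ℤ[X], derivative ((X - 1) ^ 2 * U) = (X - 1) * (2 * U + (X - 1) * derivative U) := by
    intro U
    rw [derivative_mul, derivative_pow]
    simp only [derivative_sub, derivative_X, derivative_one, Nat.cast_ofNat, map_ofNat]
    ring
  have h3 : ∀ U : ℤ[X], derivative ((X - 1) * U) = U + (X - 1) * derivative U := by
    intro U
    rw [derivative_mul]
    simp only [derivative_sub, derivative_X, derivative_one]
    ring
  rw [h1, h2, h3]
  simp
  ring

theorem d1 (W : ℤ[X]) : (derivative ((X + 1) * W)).eval (-1) = W.eval (-1) := by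
  rw [derivative_mul]
  simp

theorem s_VAL1 : S_VAL1 := by
  intro A f g hA hF
  have heq := hF.eq
  unfold L4 T at heq
  have hd : ∀ n : ℕ, derivative (X ^ (n + 1) : ℤ[X]) = C ((n : ℤ) + 1) * X ^ n := by
    intro n
    rw [derivative_X_pow]
    simp
  obtain ⟨a, rfl⟩ : ∃ a, A = a + 1 := ⟨A - 1, by omega⟩
  have e1 : 2 * (a + 1) + 2 = 2 * a + 1 + 1 + 1 + 1 := by ring
  have e2 : 2 * (a + 1) + 1 = 2 * a + 1 + 1 + 1 := by ring
  rw [e1, e2] at heq
  constructor
  · have h1 := congrArg (fun P : ℤ[X] => (derivative (derivative (derivative P))).eval 1) heq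
    try simp only at h1
    rw [mul_assoc, d3] at h1
    simp only [derivative_sub, derivative_C_mul, hd, derivative_one, derivative_X, sub_zero,
      eval_sub, eval_mul, eval_C, eval_pow, eval_X, one_pow, eval_add, eval_one,
      derivative_zero, eval_zero] at h1
    push_cast at h1 ⊢
    apply mul_left_cancel₀ (two_ne_zero (α := ℤ))
    linear_combination h1
  · have h1 := congrArg (fun P : ℤ[X] => (derivative P).eval (-1)) heq
    try simp only at h1
    rw [show (X - 1 : ℤ[X]) ^ 3 * (X + 1) * (f * g) = (X + 1) * ((X - 1) ^ 3 * (f * g)) by ring,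
      d1] at h1
    have e3 : (-1 : ℤ) ^ (2 * a + 1) = -1 := by rw [pow_succ, pow_mul]; norm_num
    have e4 : (-1 : ℤ) ^ (2 * a + 1 + 1) = 1 := by rw [pow_succ, e3]; norm_num
    have e5 : (-1 : ℤ) ^ (2 * a + 1 + 1 + 1) = -1 := by rw [pow_succ, e4]; norm_num
    simp only [derivative_sub, derivative_C_mul, hd, derivative_one, derivative_X, sub_zero,
      eval_sub, eval_mul, eval_C, eval_pow, eval_X, eval_one, e4, e5] at h1
    push_cast at h1 ⊢
    linarith

end Pool.Agent.L7h56.TN
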